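import Mathlib
import Pool.Agent.H5X.EnergyP

set_option autoImplicit false

namespace Pool.Agent.Results.MP_51d21a_co.NeverPlusTwo

open Matrix

open Classical in
/-- The adjacency matrix of a finite simple graph is a real symmetric matrix. -/
theorem adj_isHermitian {V : Type} [Fintype V] (G : SimpleGraph V) :
    (G.adjMatrix ℝ).IsHermitian := by
  rw [Matrix.IsHermitian, conjTranspose_eq_transpose_of_trivial]
  exact G.transpose_adjMatrix

open Classical in
/-- The energy of a finite simple graph: the sum of the absolute values of the eigenvalues
(with multiplicity) of its adjacency matrix. -/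
noncomputable def energy {V : Type} [Fintype V] (G : SimpleGraph V) : ℝ :=
  ∑ i : V, |(adj_isHermitian G).eigenvalues i|

/-- The answer to Q1 is no: deleting an edge never raises the energy by exactly 2. -/
theorem result (V : Type) [Fintype V] (G : SimpleGraph V) (e : Sym2 V) (he : e ∈ G.edgeSet) :
    energy (G.deleteEdges {e}) ≠ energy G + 2 :=
  Pool.Agent.H5X.EnergyP.t V G e he

end Pool.Agent.Results.MP_51d21a_co.NeverPlusTwo
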